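import Pool.Agent.H27.G.R_seed8.H306R2.RZ.Defs4
import Pool.Agent.H27.G.R_seed8.H139R2.HI5
import Pool.Agent.H27.G.R_seed8.H355R3.RZ4_HE
import Pool.Agent.H27.G.R_seed8.H413R2.RZ4_HP
import Pool.Agent.H27.G.R_seed8.H640R2.RZ4_HR
import Pool.Agent.H27.G.R_seed8.H648R2.RZ4_HI0
import Pool.Agent.H27.G.R_seed8.H348R2.RZ4_HIk
import Pool.Agent.H27.G.R_seed8.H413R2.RZ4_HM
import Pool.Agent.H27.G.R_seed8.H648R2.RZ4_HC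
import Pool.Agent.H27.G.R_seed8.H375R3.RZ4_HB

set_option autoImplicit false

/-! Project RZ (helper306), linking of waves four to six (helper423): no hypotheses,
no stubs. -/

namespace Pool.Agent.H423R2.RZL

open Finset Filter Topology MeasureTheory Pool.Agent.H306R2.RZ

noncomputable section

theorem HIk (β : ℝ) (h1 : 1 < β) (h2 : β ≤ 2) (h : LSP β) (ε : ℝ) (hε : 0 < ε) :
    ∃ ε0 : ℝ, 0 < ε0 ∧ ∀ ε' : ℝ, 0 < ε' → ε' ≤ ε0 → ∃ C : ℝ, 0 < C ∧ ∀ M N : ℕ, 2 ≤ N →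
      (N : ℝ) ^ (2 - 1 / β) ≤ M → M ≤ N ^ 2 → ∀ (ρ : ℕ) (a : ℕ → ℂ),
      (∀ n, a n ≠ 0 → N < 2 * n ∧ n ≤ N ∧ n % 4 = ρ) →
      ‖∑ k ∈ (Icc (-(⌊(N : ℝ) ^ 2 * ((M : ℝ) * N) ^ ε' / M⌋₊ : ℤ))
          (⌊(N : ℝ) ^ 2 * ((M : ℝ) * N) ^ ε' / M⌋₊ : ℤ)).filter (fun k => Squarefree k.natAbs),
        ∑ n1 ∈ osf N, ∑ n2 ∈ osf N, if n1 = n2 then 0 else
          a n1 * (starRingEnd ℂ) (a n2) *
            ((js k (n1 * n2 / Nat.gcd n1 n2 ^ 2) *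
                ThK M k (Nat.gcd n1 n2) (n1 * n2 / Nat.gcd n1 n2 ^ 2) -
              js k (n1 * n2) * Phr (n1 * n2) (Real.sqrt (M / k.natAbs)) : ℝ) : ℂ)‖ ≤
        C * ((M : ℝ) * N) ^ ε * M * ∑ n ∈ osf N, ‖a n‖ ^ 2 :=
  Pool.Agent.H348R2.RZHIk.HIk_of (fun M N B hB h => Pool.Agent.H640R2.RZ4.HR M N B hB h)
    Pool.Agent.H413R2.RZ4HM.HM (fun M hM k hk g q hg hq hgq =>
      Pool.Agent.H648R2.RZHC.HC M hM k hk g q hg hq hgq)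
    (fun N K g hgo hgs B hB h a u U hU hu S hS ω hω =>
      Pool.Agent.H375R3.RZ4.HB N K g hgo hgs B hB h a u U hU hu S hS ω hω) β h1 h2 h ε hε

theorem HI (β : ℝ) (h1 : 1 < β) (h2 : β ≤ 2) (h : LSP β) : LSP (2 - 1 / β) :=
  Pool.Agent.H139R2.HI.HI_of Pool.Agent.H355R3.RZ4HE.HE Pool.Agent.H413R2.RZ4HP.HP
    Pool.Agent.H640R2.RZ4.HR Pool.Agent.H648R2.RZHI0.HI0 HIk β h1 h2 h

end

end Pool.Agent.H423R2.RZL
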